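import Mathlib

/-! Integer valued polynomials: divisibility by a fixed number need only be checked at finitely
many points. -/

set_option autoImplicit false

namespace Pool.Agent.Helper484_IntPoly

open Finset Polynomial

/-- `f` is given by a polynomial of degree at most `d`. -/
def IP (d : ℕ) (f : ℕ → ℤ) : Prop :=
  ∃ P : ℚ[X], P.natDegree ≤ d ∧ ∀ n : ℕ, (f n : ℚ) = P.eval (n : ℚ)

theorem IP.mono {d e : ℕ} {f : ℕ → ℤ} (h : IP d f) (hde : d ≤ e) : IP e f := by
  obtain ⟨P, h1, h2⟩ := h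
  exact ⟨P, h1.trans hde, h2⟩

theorem IP.const (c : ℤ) : IP 0 (fun _ => c) :=
  ⟨C (c : ℚ), by simp, fun n => by simp⟩

theorem IP.id : IP 1 (fun n => (n : ℤ)) :=
  ⟨X, by simp, fun n => by simp⟩

theorem IP.add {d e : ℕ} {f g : ℕ → ℤ} (hf : IP d f) (hg : IP e g) :
    IP (max d e) (fun n => f n + g n) := by
  obtain ⟨P, h1, h2⟩ := hf
  obtain ⟨Q, h3, h4⟩ := hg
  refine ⟨P + Q, (natDegree_add_le _ _).trans (max_le_max h1 h3), fun n => ?_⟩
  push_cast
  rw [h2, h4, eval_add]

theorem IP.neg {d : ℕ} {f : ℕ → ℤ} (hf : IP d f) : IP d (fun n => -f n) := by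
  obtain ⟨P, h1, h2⟩ := hf
  refine ⟨-P, by rw [natDegree_neg]; exact h1, fun n => ?_⟩
  push_cast
  rw [h2, eval_neg]

theorem IP.sub {d e : ℕ} {f g : ℕ → ℤ} (hf : IP d f) (hg : IP e g) :
    IP (max d e) (fun n => f n - g n) := by
  simp_rw [sub_eq_add_neg]
  exact hf.add hg.neg

theorem IP.mul {d e : ℕ} {f g : ℕ → ℤ} (hf : IP d f) (hg : IP e g) :
    IP (d + e) (fun n => f n * g n) := by
  obtain ⟨P, h1, h2⟩ := hf
  obtain ⟨Q, h3, h4⟩ := hg
  refine ⟨P * Q, natDegree_mul_le.trans (add_le_add h1 h3), fun n => ?_⟩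
  push_cast
  rw [h2, h4, eval_mul]

theorem IP.pow {d : ℕ} {f : ℕ → ℤ} (hf : IP d f) (k : ℕ) : IP (k * d) (fun n => f n ^ k) := by
  obtain ⟨P, h1, h2⟩ := hf
  refine ⟨P ^ k, natDegree_pow_le.trans (Nat.mul_le_mul_left k h1), fun n => ?_⟩
  push_cast
  rw [h2, eval_pow]

theorem IP.shift {d : ℕ} {f : ℕ → ℤ} (hf : IP d f) : IP d (fun n => f (n + 1)) := by
  obtain ⟨P, h1, h2⟩ := hf
  refine ⟨P.comp (X + C 1), ?_, fun n => ?_⟩
  · refine natDegree_comp_le.trans ?_
    rw [natDegree_X_add_C, mul_one]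
    exact h1
  · rw [h2]
    simp

theorem IP.choose (j : ℕ) : IP j (fun n => (n.choose j : ℤ)) := by
  refine ⟨C ((1 : ℚ) / j.factorial) * descPochhammer ℚ j, ?_, fun n => ?_⟩
  · refine (natDegree_C_mul_le _ _).trans ?_
    rw [descPochhammer_natDegree]
  · rw [eval_mul, eval_C, descPochhammer_eval_eq_descFactorial,
      Nat.descFactorial_eq_factorial_mul_choose]
    have : (j.factorial : ℚ) ≠ 0 := by positivity
    push_cast
    field_simp

theorem IP.sum {ι : Type*} (s : Finset ι) {d : ℕ} {f : ι → ℕ → ℤ} (h : ∀ i ∈ s, IP d (f i)) :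
    IP d (fun n => ∑ i ∈ s, f i n) := by
  classical
  induction s using Finset.induction_on with
  | empty =>
    simp only [sum_empty]
    exact (IP.const 0).mono (Nat.zero_le _)
  | insert a s ha ih =>
    have h1 := (h a (mem_insert_self a s)).add (ih fun i hi => h i (mem_insert_of_mem hi))
    rw [max_self] at h1
    simpa [sum_insert ha] using h1

/-- The divisibility principle. -/
theorem IP.dvd {d : ℕ} {f : ℕ → ℤ} (hf : IP d f) (M : ℤ) (h : ∀ n ≤ d, M ∣ f n) (n : ℕ) :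
    M ∣ f n := by
  have key : ∀ k : ℕ, M ∣ (fwdDiff 1)^[k] f 0 := by
    intro k
    rcases Nat.lt_or_ge d k with hk | hk
    · obtain ⟨P, h1, h2⟩ := hf
      have h3 := congrFun (Polynomial.fwdDiff_iter_eq_zero_of_degree_lt (lt_of_le_of_lt h1 hk)) 0
      rw [fwdDiff_iter_eq_sum_shift, Pi.zero_apply] at h3
      have h4 : (((fwdDiff 1)^[k] f 0 : ℤ) : ℚ) = 0 := by
        rw [fwdDiff_iter_eq_sum_shift, ← h3]
        push_cast
        apply sum_congr rfl
        intro i _
        simp only [zero_add, smul_eq_mul, zsmul_eq_mul]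
        push_cast
        rw [h2]
        simp
      have h5 : (fwdDiff 1)^[k] f 0 = 0 := by exact_mod_cast h4
      rw [h5]
      exact dvd_zero _
    · rw [fwdDiff_iter_eq_sum_shift]
      apply dvd_sum
      intro i hi
      rw [mem_range] at hi
      rw [smul_eq_mul]
      apply Dvd.dvd.mul_left
      have := h i (by omega)
      simpa using this
  have h1 := shift_eq_sum_fwdDiff_iter (1 : ℕ) f n 0
  rw [zero_add, smul_eq_mul, mul_one] at h1
  rw [h1]
  apply dvd_sum
  intro k _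
  rw [nsmul_eq_mul]
  exact Dvd.dvd.mul_left (key k) _

end Pool.Agent.Helper484_IntPoly
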